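import Pool.Agent.H14.PD.Stmts

/-! Project PD, module XRA. -/

set_option autoImplicit false

namespace Pool.Agent.H14.PD

theorem pd_xra_pe {P Q : Type} (Z : Sz P Q) (p : P) (b : Bool) : ∃ c, pe Z p b = Nd.p p c := by
  unfold pe
  split_ifs
  · exact ⟨_, rfl⟩
  · exact ⟨_, rfl⟩

theorem pd_xra_nrm_pe {P Q : Type} (Z : Sz P Q) (p : P) (b : Bool) : nrm Z (pe Z p b) := by
  intro b' h
  unfold pe at h
  split_ifs at h with h1
  · injection h with h3 h4
    exact h4.symm
  · injection h with h3 h4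
    exact absurd h3 h1

/-- Q-type at coordinate 0 -/
theorem pd_xra_q {P Q : Type} (Z : Sz P Q) {m : ℕ} (hm : 1 ≤ m) {x : Xv P Q} {q : Q} {b : Bool}
    (hx : gd Z x) (h0 : x 0 = Nd.q q b) {p : P} (hp : Z.bp p = !(Z.bq q))
    (h1 : ∀ q1 c, x 1 = Nd.q q1 c → Z.adj p q1) :
    xlab Z x (0, p, q, b) ∧ 0 < xeta Z m x (0, p, q, b) := by
  have e0 : oe Z (x 0) p q b = pe Z p b := by
    unfold oe
    rw [if_pos h0]
  have hact : xact Z x (0, p, q, b) = Function.update x 0 (pe Z p b) := by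
    unfold xact
    simp only [e0]
  obtain ⟨c0, hc0⟩ := pd_xra_pe Z p b
  refine ⟨⟨hx, ?_, Or.inl h0⟩, ?_⟩
  · rw [hact]
    refine ⟨fun k => ?_, fun k p' b' q' c h2 h3 => ?_⟩
    · by_cases hk : k = 0
      · subst hk
        rw [Function.update_self]
        exact pd_xra_nrm_pe Z p b
      · rw [Function.update_of_ne hk]
        exact hx.1 k
    · by_cases hk : k = 0
      · subst hk
        rw [Function.update_self, hc0] at h2
        injection h2 with h4 h5
        rw [Function.update_of_ne (by decide)] at h3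
        exact h4 ▸ h1 q' c h3
      · by_cases hk1 : k + 1 = 0
        · rw [hk1, Function.update_self, hc0] at h3
          exact absurd h3 (by simp)
        · rw [Function.update_of_ne hk] at h2
          rw [Function.update_of_ne hk1] at h3
          exact hx.2 k p' b' q' c h2 h3
  · have hmz : (0 : ℤ) < m := by exact_mod_cast hm
    have hne : Z.bp p ≠ Z.bq q := by
      rw [hp]
      cases Z.bq q <;> simp
    unfold xeta
    simp only [h0, if_true, if_neg hne]
    simpa using hmz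

/-- P-type at coordinate 0 -/
theorem pd_xra_p {P Q : Type} (Z : Sz P Q) {m : ℕ} (hm : 1 ≤ m) {x : Xv P Q} {p : P}
    {b0 b : Bool} (hx : gd Z x) (h0 : x 0 = Nd.p p b0) (hb : p = Z.ps ∨ b0 = b) {q : Q}
    (hq : Z.bq q = Z.bp p) (h2 : ∀ p2 c, x 2 = Nd.p p2 c → Z.adj p2 q) :
    xlab Z x (0, p, q, b) ∧ 0 < xeta Z m x (0, p, q, b) := by
  have hnq : x 0 ≠ Nd.q q b := by
    rw [h0]
    simp
  have e0 : oe Z (x 0) p q b = Nd.q q b := by
    unfold oe
    rw [if_neg hnq]
  have hact : xact Z x (0, p, q, b) = Function.update x 0 (Nd.q q b) := by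
    unfold xact
    simp only [e0]
  have hxp : x 0 = pe Z p b := by
    unfold pe
    split_ifs with h
    · subst h
      have := hx.1 0 b0 h0
      rw [h0, this]
    · rcases hb with hb | hb
      · exact absurd hb h
      · rw [h0, hb]
  refine ⟨⟨hx, ?_, Or.inr hxp⟩, ?_⟩
  · rw [hact]
    refine ⟨fun k => ?_, fun k p' b' q' c h3 h4 => ?_⟩
    · by_cases hk : k = 0
      · subst hk
        rw [Function.update_self]
        intro b1 h
        exact absurd h (by simp)
      · rw [Function.update_of_ne hk]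
        exact hx.1 k
    · by_cases hk : k = 0
      · subst hk
        rw [Function.update_self] at h3
        exact absurd h3 (by simp)
      · by_cases hk1 : k + 1 = 0
        · have hk2 : k = 2 := by
            revert hk1
            clear * -
            revert k
            decide
          subst hk2
          rw [Function.update_of_ne hk] at h3
          rw [hk1, Function.update_self] at h4
          injection h4 with h5 h6
          exact h5 ▸ h2 p' b' h3
        · rw [Function.update_of_ne hk] at h3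
          rw [Function.update_of_ne hk1] at h4
          exact hx.2 k p' b' q' c h3 h4
  · have hmz : (0 : ℤ) < m := by exact_mod_cast hm
    unfold xeta
    simp only [if_true, hq, if_neg hnq]
    simpa using hmz

theorem pd_xra : M_XRA := by
  intro hCM hPA _ P Q Z m hm b x s hcp hs hns _
  have hx := hs.1
  obtain ⟨hsym, -⟩ := hCM P Q Z
  have h12 : s.1 = 1 ∨ s.1 = 2 := by
    have h0 : s.1 ≠ 0 := hns
    revert h0
    generalize s.1 = i
    revert i
    decide
  have hsx := hs.2.2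
  -- shape of coordinate `s.1`
  have hsq : ∀ q1 c, x s.1 = Nd.q q1 c → q1 = s.2.2.1 := by
    intro q1 c h
    rcases hsx with h' | h'
    · rw [h'] at h
      injection h with h3 h4
      exact h3.symm
    · obtain ⟨c', hc'⟩ := pd_xra_pe Z s.2.1 s.2.2.2
      rw [h', hc'] at h
      exact absurd h (by simp)
  have hsp : ∀ p1 c, x s.1 = Nd.p p1 c → p1 = s.2.1 := by
    intro p1 c h
    rcases hsx with h' | h'
    · rw [h'] at h
      exact absurd h (by simp)
    · obtain ⟨c', hc'⟩ := pd_xra_pe Z s.2.1 s.2.2.2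
      rw [h', hc'] at h
      injection h with h3 h4
      exact h3.symm
  have typ : (∃ q, x 0 = Nd.q q b) ∨ ∃ p b0, x 0 = Nd.p p b0 ∧ (p = Z.ps ∨ b0 = b) := by
    rcases hcp with ⟨b', h⟩ | ⟨p, h⟩ | ⟨q, h⟩
    · exact Or.inr ⟨_, _, h, Or.inl rfl⟩
    · exact Or.inr ⟨_, _, h, Or.inr rfl⟩
    · exact Or.inl ⟨_, h⟩
  rcases typ with ⟨q, h0⟩ | ⟨p, b0, h0, hb⟩
  · rcases h12 with hs1 | hs2
    · obtain ⟨p, hadj, hbp⟩ := Z.nbq s.2.2.1 (!(Z.bq q))
      obtain ⟨hl, he⟩ := pd_xra_q Z hm (x := x) hx h0 hbp (by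
        intro q1 c h
        rw [← hs1] at h
        rw [hsq q1 c h]
        exact hadj)
      exact ⟨(0, p, q, b), rfl, rfl, hl, he, Or.inr ⟨by rw [hs1]; rfl, hadj⟩⟩
    · -- choose `p'` adjacent to `q1` if `x 1 = q1`
      obtain ⟨p, hp1, hp2⟩ : ∃ p, Z.bp p = !(Z.bq q) ∧ ∀ q1 c, x 1 = Nd.q q1 c → Z.adj p q1 := by
        rcases hx1 : x 1 with ⟨p1, c1⟩ | ⟨q1, c1⟩
        · obtain ⟨p, -, hp⟩ := Z.nbq q (!(Z.bq q))
          exact ⟨p, hp, fun q1 c h => absurd h (by simp)⟩
        · obtain ⟨p, h, hp⟩ := Z.nbq q1 (!(Z.bq q))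
          refine ⟨p, hp, fun q2 c h' => ?_⟩
          injection h' with h3 h4
          exact h3 ▸ h
      obtain ⟨hl, he⟩ := pd_xra_q Z hm (x := x) hx h0 hp1 hp2
      refine ⟨(0, p, q, b), rfl, rfl, hl, he, hPA P Q Z x s _ ?_ hs hl ?_⟩
      · rw [hs2]; rfl
      · rintro ⟨-, p', b', h⟩
        rw [h0] at h
        exact absurd h (by simp)
  · rcases h12 with hs1 | hs2
    · obtain ⟨q, hq1, hq2⟩ : ∃ q, Z.bq q = Z.bp p ∧ ∀ p2 c, x 2 = Nd.p p2 c → Z.adj p2 q := by
        rcases hx2 : x 2 with ⟨p2, c2⟩ | ⟨q2, c2⟩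
        · obtain ⟨q, h, hq⟩ := Z.nbp p2 (Z.bp p)
          refine ⟨q, hq, fun p3 c h' => ?_⟩
          injection h' with h3 h4
          exact h3 ▸ h
        · obtain ⟨q, -, hq⟩ := Z.nbp p (Z.bp p)
          exact ⟨q, hq, fun p3 c h => absurd h (by simp)⟩
      obtain ⟨hl, he⟩ := pd_xra_p Z hm (x := x) hx h0 hb hq1 hq2
      refine ⟨(0, p, q, b), rfl, rfl, hl, he, hsym _ _ (hPA P Q Z x _ s ?_ hl hs ?_)⟩
      · rw [hs1]; rfl
      · rintro ⟨⟨q', b', h⟩, -⟩
        rw [h0] at h
        exact absurd h (by simp)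
    · obtain ⟨q, hadj, hbq⟩ := Z.nbp s.2.1 (Z.bp p)
      obtain ⟨hl, he⟩ := pd_xra_p Z hm (x := x) hx h0 hb hbq (by
        intro p2 c h
        rw [← hs2] at h
        rw [hsp p2 c h]
        exact hadj)
      exact ⟨(0, p, q, b), rfl, rfl, hl, he, Or.inl ⟨by rw [hs2]; rfl, hadj⟩⟩

end Pool.Agent.H14.PD
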