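import Pool.Agent.H14.PD.Stmts

/-! Project PD, module XSQ. -/

set_option autoImplicit false

namespace Pool.Agent.H14.PD

theorem pd_xsq_oe_p {P Q : Type} (Z : Sz P Q) {n : Nd P Q} {p p' : P} {q : Q} {b b' : Bool}
    (h : oe Z n p q b = Nd.p p' b') : p' = p := by
  unfold oe pe at h
  split_ifs at h with h1 h2 h2
  · injection h with h3 h4
    exact h3.symm
  · injection h with h3 h4
    exact h3.symm

theorem pd_xsq_oe_q {P Q : Type} (Z : Sz P Q) {n : Nd P Q} {p : P} {q q' : Q} {b b' : Bool}
    (h : oe Z n p q b = Nd.q q' b') : q' = q := by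
  unfold oe pe at h
  split_ifs at h with h1 h2 h2
  injection h with h3 h4
  exact h3.symm

theorem pd_xsq : M_XSQ := by
  intro _ P Q Z x s t hc hs ht
  have hij : s.1 ≠ t.1 := by
    rcases hc with ⟨h, -⟩ | ⟨h, -⟩
    · rw [h]; generalize s.1 = i; revert i; decide
    · rw [h]; generalize t.1 = i; revert i; decide
  set a := oe Z (x s.1) s.2.1 s.2.2.1 s.2.2.2 with ha
  set b := oe Z (x t.1) t.2.1 t.2.2.1 t.2.2.2 with hb
  have e1 : xact Z x s = Function.update x s.1 a := rfl
  have e2 : xact Z x t = Function.update x t.1 b := rfl
  have f1 : xact Z x s t.1 = x t.1 := by rw [e1, Function.update_of_ne hij.symm]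
  have f2 : xact Z x t s.1 = x s.1 := by rw [e2, Function.update_of_ne hij]
  have e3 : xact Z (xact Z x s) t = Function.update (Function.update x s.1 a) t.1 b := by
    unfold xact at f1 ⊢
    rw [f1]
  have e4 : xact Z (xact Z x t) s = Function.update (Function.update x t.1 b) s.1 a := by
    unfold xact at f2 ⊢
    rw [f2]
  have e5 : xact Z (xact Z x s) t = xact Z (xact Z x t) s := by
    rw [e3, e4, Function.update_comm hij.symm]
  refine ⟨⟨hs.2.1, ?_, ?_⟩, e5⟩
  · set X := xact Z (xact Z x s) t with hX
    have Xi : X s.1 = a := by rw [e3, Function.update_of_ne hij, Function.update_self]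
    have Xj : X t.1 = b := by rw [e3, Function.update_self]
    have g1 : xact Z x s s.1 = a := by rw [e1, Function.update_self]
    have g2 : xact Z x t t.1 = b := by rw [e2, Function.update_self]
    have Xs : ∀ k, k ≠ t.1 → X k = xact Z x s k := fun k hk => by
      rw [e3, Function.update_of_ne hk, e1]
    have Xt : ∀ k, k ≠ s.1 → X k = xact Z x t k := fun k hk => by
      rw [e5, e4, Function.update_of_ne hk, e2]
    refine ⟨fun k => ?_, fun k p b' q c h1 h2 => ?_⟩
    · by_cases hk : k = t.1
      · rw [Xt k (by rw [hk]; exact hij.symm)]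
        exact ht.2.1.1 k
      · rw [Xs k hk]
        exact hs.2.1.1 k
    · by_cases hk1 : k = t.1
      · by_cases hk2 : k + 1 = s.1
        · rw [hk1, Xj, hb] at h1
          rw [hk2, Xi, ha] at h2
          have p1 := pd_xsq_oe_p Z h1
          have q1 := pd_xsq_oe_q Z h2
          subst p1 q1
          rcases hc with ⟨h, -⟩ | ⟨h, h'⟩
          · exfalso
            rw [← hk1, ← hk2] at h
            clear * - h
            revert h
            revert k
            decide
          · exact h'
        · rw [Xt k (by rw [hk1]; exact hij.symm)] at h1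
          rw [Xt (k + 1) hk2] at h2
          exact ht.2.1.2 k p b' q c h1 h2
      · by_cases hk2 : k + 1 = t.1
        · by_cases hk3 : k = s.1
          · rw [hk3, Xi, ha] at h1
            rw [hk2, Xj, hb] at h2
            have p1 := pd_xsq_oe_p Z h1
            have q1 := pd_xsq_oe_q Z h2
            subst p1 q1
            rcases hc with ⟨h, h'⟩ | ⟨h, -⟩
            · exact h'
            · exfalso
              rw [← hk3, ← hk2] at h
              clear * - h
              revert h
              revert k
              decide
          · rw [Xt k hk3] at h1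
            rw [Xt (k + 1) (by rw [hk2]; exact hij.symm)] at h2
            exact ht.2.1.2 k p b' q c h1 h2
        · rw [Xs k hk1] at h1
          rw [Xs (k + 1) hk2] at h2
          exact hs.2.1.2 k p b' q c h1 h2
  · rw [f1]
    exact ht.2.2

end Pool.Agent.H14.PD
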